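import Pool.Agent.Q73.LT.Base

/-!
There is a projective generalized klt pair of dimension three, with pseudo-effective `K + B + β`,
which has no log terminal model, even if the model is not required to be `ℚ`-factorial or
generalized dlt.
-/

set_option autoImplicit false

open FF Pool.Agent.Q73.LT

namespace Pool.Agent.Results.MP_c8c12f_ag.NoLogTerminalModel

/-- There is a projective generalized klt pair `(X y, B + β)` of dimension three over `ℂ` with
pseudo-effective `K + B + β = D` which has no log terminal model `(X y', B + β)`, and not even a
weak one, which is not required to be `ℚ`-factorial or generalized dlt. -/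
theorem result : ∃ (K : Type) (_ : Field K) (_ : Algebra ℂ K) (y : Sys K)
    (ω : (Fin 3 → Derivation ℂ K K) → K) (B β D : Place ℂ K → ℝ),
    IsGPair 3 y ω B β D ∧ Gklt 3 ω β D ∧ Psef y D ∧
      ¬ ∃ (y' : Sys K) (D' : Place ℂ K → ℝ), IsLTM 3 y ω B β D y' D' :=
  main_of top3 bas3

end Pool.Agent.Results.MP_c8c12f_ag.NoLogTerminalModel
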